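import Pool.Agent.helper52.BQ.B5c
import Pool.Agent.helper52.BQ.B2a
import Pool.Agent.helper4.BQ.B5a
import Pool.Agent.helper82.BQ.T2a
import Pool.Agent.helper79.BQ.B5e

/-!
# BQ, B5d: equivariance of the Siegel matrix of a point of the ball
-/

open Matrix Complex

set_option linter.unusedSectionVars false

namespace Pool.Agent.helper76.BQ

variable {F : Type} [Field F] [NumberField F]

theorem B5d_h_ne {κ d : F} {v0 : F →+* ℝ} (hd : Data κ d v0) (v : F →+* ℝ) (a : Fin 3) :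
    (![1, 1, -(v d)] : Fin 3 → ℝ) a ≠ 0 := by
  have h1 : v d ≠ 0 := by
    by_cases hv : v = v0
    · rw [hv]; exact hd.dpos.ne'
    · exact (hd.dneg v hv).ne
  fin_cases a
  · simp
  · simp
  · simpa using h1

/-- the real coordinates of the dual basis separate -/
theorem B5d_complete {κ d : F} {v0 : F →+* ℝ} (hd : Data κ d v0) {k g : ℕ} {δ : Fin k → F}
    (hδ : ∀ l, δ l ≠ 0) {bas dua : Fin g → Fin k → Fin 3 → F} (hL : LB d δ bas dua) (i j : Fin g) :
    ∑ v : F →+* ℝ, ∑ l, ∑ a, v (bas i l a) * (v (δ l) * (![1, 1, -(v d)] : Fin 3 → ℝ) a) *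
      v (dua j l a) = if i = j then 1 else 0 := by
  classical
  let K := (F →+* ℝ) × Fin k × Fin 3
  let P : Matrix K (Fin g) ℝ := fun κ' i =>
    κ'.1 (δ κ'.2.1) * (![1, 1, -(κ'.1 d)] : Fin 3 → ℝ) κ'.2.2 * κ'.1 (dua i κ'.2.1 κ'.2.2)
  let Q : Matrix (Fin g) K ℝ := fun i κ' => κ'.1 (bas i κ'.2.1 κ'.2.2)
  have hPQ : P * Q = 1 := by
    ext ⟨v, l, a⟩ ⟨w, m, b⟩
    rw [Matrix.mul_apply, Matrix.one_apply]
    have h1 : ∑ j, P (v, l, a) j * Q j (w, m, b) =
        v (δ l) * (![1, 1, -(v d)] : Fin 3 → ℝ) a * ∑ i, v (dua i l a) * w (bas i m b) := by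
      rw [Finset.mul_sum]
      exact Finset.sum_congr rfl fun i _ => by simp only [P, Q]; ring
    rw [h1]
    have hv : v (δ l) ≠ 0 := by
      rw [Ne, map_eq_zero]; exact hδ l
    have hne : v (δ l) * (![1, 1, -(v d)] : Fin 3 → ℝ) a ≠ 0 := mul_ne_zero hv (B5d_h_ne hd v a)
    split_ifs with h
    · have h2 : v = w ∧ l = m ∧ a = b := by
        simpa [Prod.ext_iff] using h
      rw [(hL.places v w l m a b).1 h2]
      exact mul_one_div_cancel hne
    · have h2 : ¬ (v = w ∧ l = m ∧ a = b) := by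
        simpa [Prod.ext_iff] using h
      rw [(hL.places v w l m a b).2 h2, mul_zero]
  have c1 : Fintype.card K ≤ Fintype.card (Fin g) := by
    have hinj : Function.Injective (Q.mulVecLin) := by
      rw [← LinearMap.ker_eq_bot, LinearMap.ker_eq_bot']
      intro x hx
      have h2 : P *ᵥ (Q *ᵥ x) = 0 := by
        have : Q *ᵥ x = 0 := hx
        rw [this, Matrix.mulVec_zero]
      rwa [Matrix.mulVec_mulVec, hPQ, Matrix.one_mulVec] at h2
    have := LinearMap.finrank_le_finrank_of_injective hinj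
    simpa using this
  have c2 : Fintype.card (Fin g) ≤ Fintype.card K := by
    have hinj : Function.Injective (Qᵀ.mulVecLin) := by
      rw [← LinearMap.ker_eq_bot, LinearMap.ker_eq_bot']
      intro x hx
      refine hL.inj x fun v l a => ?_
      have h2 := congrFun (show Qᵀ *ᵥ x = 0 from hx) (v, l, a)
      rw [Matrix.mulVec, dotProduct] at h2
      simp only [Q, Pi.zero_apply] at h2
      rw [← h2]
      exact Finset.sum_congr rfl fun i _ => mul_comm _ _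
    have := LinearMap.finrank_le_finrank_of_injective hinj
    simpa using this
  have hQP : Q * P = 1 := (Matrix.mul_eq_one_comm_of_equiv (Fintype.equivOfCardEq (le_antisymm c1 c2))).1 hPQ
  have h3 := congrFun (congrFun hQP i) j
  rw [Matrix.mul_apply, Matrix.one_apply, Fintype.sum_prod_type] at h3
  rw [← h3]
  refine Finset.sum_congr rfl fun v _ => ?_
  rw [Fintype.sum_prod_type]
  exact Finset.sum_congr rfl fun l _ => Finset.sum_congr rfl fun a _ => by
    simp only [P, Q]; ring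

theorem B5d_ext {κ d : F} {v0 : F →+* ℝ} (hd : Data κ d v0) {k g : ℕ} {δ : Fin k → F}
    (hδ : ∀ l, δ l ≠ 0) {bas dua : Fin g → Fin k → Fin 3 → F} (hL : LB d δ bas dua)
    (y y' : Fin g → ℂ)
    (h : ∀ (v : F →+* ℝ) (l : Fin k), ∑ j, y j • pl v (dua j l) = ∑ j, y' j • pl v (dua j l)) :
    y = y' := by
  have key : ∀ (y : Fin g → ℂ) (i : Fin g), y i = ∑ v : F →+* ℝ, ∑ l, ∑ a,
      ((v (bas i l a) * (v (δ l) * (![1, 1, -(v d)] : Fin 3 → ℝ) a) : ℝ) : ℂ) *
        (∑ j, y j • pl v (dua j l)) a := by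
    intro y i
    have h1 : ∀ (v : F →+* ℝ) (l : Fin k) (a : Fin 3),
        ((v (bas i l a) * (v (δ l) * (![1, 1, -(v d)] : Fin 3 → ℝ) a) : ℝ) : ℂ) *
        (∑ j, y j • pl v (dua j l)) a = ∑ j, y j *
          ((v (bas i l a) * (v (δ l) * (![1, 1, -(v d)] : Fin 3 → ℝ) a) * v (dua j l a) : ℝ) : ℂ) := by
      intro v l a
      rw [Finset.sum_apply, Finset.mul_sum]
      refine Finset.sum_congr rfl fun j _ => ?_
      rw [Pi.smul_apply, smul_eq_mul, pl, Complex.ofReal_mul _ (v (dua j l a))]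
      ring
    simp only [h1]
    have h2 : ∀ j, y j * ((∑ v : F →+* ℝ, ∑ l, ∑ a, v (bas i l a) *
          (v (δ l) * (![1, 1, -(v d)] : Fin 3 → ℝ) a) * v (dua j l a) : ℝ) : ℂ) =
        ∑ v : F →+* ℝ, ∑ l, ∑ a, y j *
          ((v (bas i l a) * (v (δ l) * (![1, 1, -(v d)] : Fin 3 → ℝ) a) * v (dua j l a) : ℝ) : ℂ) := by
      intro j
      rw [Complex.ofReal_sum, Finset.mul_sum]
      refine Finset.sum_congr rfl fun v _ => ?_
      rw [Complex.ofReal_sum, Finset.mul_sum]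
      refine Finset.sum_congr rfl fun l _ => ?_
      rw [Complex.ofReal_sum, Finset.mul_sum]
    have h3 : ∑ j, y j * ((∑ v : F →+* ℝ, ∑ l, ∑ a, v (bas i l a) *
          (v (δ l) * (![1, 1, -(v d)] : Fin 3 → ℝ) a) * v (dua j l a) : ℝ) : ℂ) =
        ∑ v : F →+* ℝ, ∑ l, ∑ a, ∑ j, y j *
          ((v (bas i l a) * (v (δ l) * (![1, 1, -(v d)] : Fin 3 → ℝ) a) * v (dua j l a) : ℝ) : ℂ) := by
      rw [Finset.sum_congr rfl fun j _ => h2 j, Finset.sum_comm]
      refine Finset.sum_congr rfl fun v _ => ?_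
      rw [Finset.sum_comm]
      refine Finset.sum_congr rfl fun l _ => ?_
      rw [Finset.sum_comm]
    rw [← h3]
    have h4 : ∀ j, y j * ((∑ v : F →+* ℝ, ∑ l, ∑ a, v (bas i l a) *
          (v (δ l) * (![1, 1, -(v d)] : Fin 3 → ℝ) a) * v (dua j l a) : ℝ) : ℂ) =
        if i = j then y j else 0 := by
      intro j
      rw [B5d_complete hd hδ hL i j]
      split_ifs <;> simp
    rw [Finset.sum_congr rfl fun j _ => h4 j]
    simp
  funext i
  rw [key y i, key y' i]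
  simp only [h]


theorem B5d_bil_dot (D : ℂ) (x y : Fin 3 → ℂ) : bil D x y = x ⬝ᵥ (HH D *ᵥ y) := by
  simp only [bil, HH, Matrix.mulVec_diagonal, dotProduct, Fin.sum_univ_three, cons_val_zero,
    cons_val_one, cons_val]
  ring

theorem B5d_gu {D : ℝ} {gm gp : Matrix (Fin 3) (Fin 3) ℂ} (h : GU D gm gp) (x y : Fin 3 → ℂ) :
    bil D (gp *ᵥ x) (gm *ᵥ y) = bil D x y := by
  have hg : gpᵀ = gmᴴ := by rw [h.conj]; rfl
  rw [B5d_bil_dot, B5d_bil_dot, Matrix.mulVec_mulVec, ← Matrix.vecMul_transpose,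
    ← Matrix.dotProduct_mulVec, Matrix.mulVec_mulVec, hg, ← Matrix.mul_assoc, h.unit]

theorem B5d_bil_smul (D : ℂ) (c : ℂ) (x y : Fin 3 → ℂ) : bil D (c • x) y = c * bil D x y := by
  simp only [bil, Pi.smul_apply, smul_eq_mul]; ring

theorem B5d_bil_smul' (D : ℂ) (c : ℂ) (x y : Fin 3 → ℂ) : bil D x (c • y) = c * bil D x y := by
  simp only [bil, Pi.smul_apply, smul_eq_mul]; ring

theorem B5d_bil_add (D : ℂ) (x x' y : Fin 3 → ℂ) : bil D (x + x') y = bil D x y + bil D x' y := by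
  simp only [bil, Pi.add_apply]; ring

theorem B5d_bil_sub (D : ℂ) (x x' y : Fin 3 → ℂ) : bil D (x - x') y = bil D x y - bil D x' y := by
  simp only [bil, Pi.sub_apply]; ring

theorem B5d_lift {D : ℝ} {z : Fin 2 → ℂ} (hz : z ∈ Ball D) : bil (D : ℂ) (lift z) (lift z) ≠ 0 := by
  have hl : bil (D : ℂ) (lift z) (lift z) = - nn D z := by
    simp only [bil, lift, nn, cons_val_zero, cons_val_one, cons_val]; ring
  rw [hl]
  exact neg_ne_zero.2 (B5c_re hz)

theorem B5d_refl {D : ℝ} (hD : 0 < D) {gm gp : Matrix (Fin 3) (Fin 3) ℂ} (h : GU D gm gp)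
    {z : Fin 2 → ℂ} (hz : z ∈ Ball D) (x : Fin 3 → ℂ) :
    AA D gm gp z x - (2 : ℂ) • PZ D (mob gm z) (AA D gm gp z x) =
      gp *ᵥ (x - PZ D z x) - gm *ᵥ PZ D z x := by
  obtain ⟨hj, hz', hjw⟩ := mob_ball hD h hz
  have hw := B5d_lift hz
  have hw' := B5d_lift hz'
  have key : PZ D (mob gm z) (AA D gm gp z x) = gm *ᵥ PZ D z x := by
    set j := (gm *ᵥ lift z) 2
    have e1 : gm *ᵥ PZ D z x = (bil D x (lift z) / bil D (lift z) (lift z) * j) •
        lift (mob gm z) := by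
      unfold PZ
      rw [Matrix.mulVec_smul, hjw, smul_smul]
    have e2 : lift (mob gm z) = j⁻¹ • (gm *ᵥ lift z) := by
      rw [hjw, smul_smul, inv_mul_cancel₀ hj, one_smul]
    have e3 : bil D (gp *ᵥ (x - PZ D z x)) (lift (mob gm z)) = 0 := by
      rw [e2, B5d_bil_smul', B5d_gu h, B5d_bil_sub]
      unfold PZ
      rw [B5d_bil_smul, div_mul_cancel₀ _ hw, sub_self, mul_zero]
    have e4 : bil D (AA D gm gp z x) (lift (mob gm z)) =
        (bil D x (lift z) / bil D (lift z) (lift z) * j) *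
          bil D (lift (mob gm z)) (lift (mob gm z)) := by
      unfold AA
      rw [B5d_bil_add, e3, e1, B5d_bil_smul, zero_add]
    rw [e1]
    conv_lhs => unfold PZ
    rw [e4, mul_div_assoc, div_self hw', mul_one]
  rw [key]
  unfold AA
  rw [two_smul]
  abel

theorem B5d_T2 {k : ℕ} {δ : Fin k → F} {v : F →+* ℝ} (hδ : ∀ l, δ l ≠ 0)
    {S M : Matrix (Fin k) (Fin k) ℝ} (h : IsMaj δ v S M) (l l'' : Fin k) :
    ∑ l', ((v (δ l))⁻¹ * M l l') * ((v (δ l'))⁻¹ * M l' l'') = if l = l'' then 1 else 0 := by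
  obtain ⟨h1, h2⟩ := h
  have hv : ∀ l, v (δ l) ≠ 0 := fun l => by
    rw [Ne, map_eq_zero]; exact hδ l
  set Q : Matrix (Fin k) (Fin k) ℝ := diagonal (fun l => v (δ l)) with hQ
  set A : Matrix (Fin k) (Fin k) ℝ := diagonal (fun l => |v (δ l)|) with hA
  set Qi : Matrix (Fin k) (Fin k) ℝ := diagonal (fun l => (v (δ l))⁻¹) with hQi
  have q1 : Qi * Q = 1 := by
    rw [hQ, hQi, diagonal_mul_diagonal, ← diagonal_one]
    congr 1
    funext l
    exact inv_mul_cancel₀ (hv l)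
  have q2 : A * Qi * A = Q := by
    rw [hQ, hQi, hA, diagonal_mul_diagonal, diagonal_mul_diagonal]
    congr 1
    funext l
    have := abs_mul_abs_self (v (δ l))
    rw [mul_right_comm, this, mul_assoc, mul_inv_cancel₀ (hv l), mul_one]
  have q3 : S * Qi * Sᵀ = Qi := by
    have a1 : (Qi * Sᵀ * Q) * S = 1 := by
      rw [mul_assoc Qi, mul_assoc Qi, h1, q1]
    have a2 : S * (Qi * Sᵀ * Q) = 1 := mul_eq_one_comm.1 a1
    have a3 : Q * Qi = 1 := mul_eq_one_comm.1 q1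
    calc S * Qi * Sᵀ = S * (Qi * Sᵀ * Q) * Qi := by
          simp only [Matrix.mul_assoc, a3, Matrix.mul_one]
      _ = Qi := by rw [a2, Matrix.one_mul]
  have q4 : (Qi * M) * (Qi * M) = 1 := by
    rw [h2]
    calc Qi * (Sᵀ * A * S) * (Qi * (Sᵀ * A * S)) =
          Qi * Sᵀ * A * (S * Qi * Sᵀ) * A * S := by simp only [Matrix.mul_assoc]
      _ = Qi * (Sᵀ * (A * Qi * A) * S) := by rw [q3]; simp only [Matrix.mul_assoc]
      _ = 1 := by rw [q2, h1, q1]
  have := congrFun (congrFun q4 l) l''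
  rw [Matrix.mul_apply, Matrix.one_apply] at this
  rw [← this]
  refine Finset.sum_congr rfl fun l' _ => ?_
  rw [hQi, diagonal_mul, diagonal_mul]

theorem B5d_num {κ d : F} {v0 : F →+* ℝ} (hd : Data κ d v0) {k g : ℕ} {δ : Fin k → F}
    {bas dua : Fin g → Fin k → Fin 3 → F} (hL : LB d δ bas dua)
    (M : (F →+* ℝ) → Matrix (Fin k) (Fin k) ℝ) {z : Fin 2 → ℂ} (hz : z ∈ Ball (v0 d))
    {A C : Matrix (Fin 3) (Fin 3) F} {MM : Matrix (Fin g ⊕ Fin g) (Fin g ⊕ Fin g) ℤ}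
    (hR : Rep κ bas dua A C MM) (c : Fin g → ℂ) (v : F →+* ℝ) (l : Fin k) :
    ∑ j, (num MM (Zm κ d v0 bas M z) *ᵥ c) j • pl v (dua j l) =
      A.map (fun x => ((v x : ℝ) : ℂ)) *ᵥ ((((Real.sqrt (v κ))⁻¹ : ℝ) : ℂ) •
        ∑ l', (((v (δ l))⁻¹ * M v l l' : ℝ) : ℂ) • B5c_R d v0 v z (∑ i, c i • pl v (bas i l'))) +
      I • (C.map (fun x => ((v x : ℝ) : ℂ)) *ᵥ ∑ i, c i • pl v (bas i l)) := by
  have hnum : num MM (Zm κ d v0 bas M z) *ᵥ c =
      toC MM.toBlocks₂₂ *ᵥ (Zm κ d v0 bas M z *ᵥ c) + I • (toC MM.toBlocks₂₁ *ᵥ c) := by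
    unfold num
    rw [add_mulVec, smul_mulVec, mulVec_mulVec]
  rw [hnum]
  simp only [Pi.add_apply, Pi.smul_apply, add_smul, Finset.sum_add_distrib, smul_assoc]
  rw [← Finset.smul_sum]
  rw [B5c_block v _ dua (fun i => mact C (bas i)) hR.cc c l,
    B5c_block v _ dua (fun i => mact A (dua i)) hR.dd (Zm κ d v0 bas M z *ᵥ c) l]
  have h1 : ∑ i, c i • pl v (mact C (bas i) l) =
      C.map (fun x => ((v x : ℝ) : ℂ)) *ᵥ (∑ i, c i • pl v (bas i l)) := by
    rw [mulVec_sum]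
    refine Finset.sum_congr rfl fun i _ => ?_
    rw [mulVec_smul]
    simp only [mact]
    rw [B5c_pl_mulVec]
  have h2 : ∑ i, (Zm κ d v0 bas M z *ᵥ c) i • pl v (mact A (dua i) l) =
      A.map (fun x => ((v x : ℝ) : ℂ)) *ᵥ (∑ i, (Zm κ d v0 bas M z *ᵥ c) i • pl v (dua i l)) := by
    rw [mulVec_sum]
    refine Finset.sum_congr rfl fun i _ => ?_
    rw [mulVec_smul]
    simp only [mact]
    rw [B5c_pl_mulVec]
  rw [h1, h2, B5c_e hd hL M hz c v l]

theorem B5d_main {κ d : F} {v0 : F →+* ℝ} (hd : Data κ d v0) {k g : ℕ} {δ : Fin k → F}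
    {bas dua : Fin g → Fin k → Fin 3 → F} (hL : LB d δ bas dua)
    {S M : (F →+* ℝ) → Matrix (Fin k) (Fin k) ℝ} (hM : MajAll δ v0 S M) {z : Fin 2 → ℂ} (hz : z ∈ Ball (v0 d))
    {A C : Matrix (Fin 3) (Fin 3) F} (hA : IsSU κ d A C) {MM : Matrix (Fin g ⊕ Fin g) (Fin g ⊕ Fin g) ℤ}
    (hR : Rep κ bas dua A C MM) (c : Fin g → ℂ) :
    num MM (Zm κ d v0 bas M z) *ᵥ c =
      Zm κ d v0 bas M (mob (evm κ v0 A C) z) *ᵥ (den MM (Zm κ d v0 bas M z) *ᵥ c) := by
  have hGU : GU (v0 d) (evm κ v0 A C) (evp κ v0 A C) := B5e_GU hA v0 (hd.kpos v0)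
  obtain ⟨hj, hz', hjw⟩ := mob_ball hd.dpos hGU hz
  obtain ⟨p1, p2⟩ := den_places hd hL hM hz hR c
  refine B5d_ext hd hM.ne hL _ _ fun v l => ?_
  rw [B5d_num hd hL M hz hR c v l, B5c_e hd hL M hz' _ v l]
  have hs0 : ((Real.sqrt (v κ) : ℝ) : ℂ) ≠ 0 := by
    exact_mod_cast (Real.sqrt_pos.2 (hd.kpos v)).ne'
  have hss : (((Real.sqrt (v κ))⁻¹ : ℝ) : ℂ) * ((Real.sqrt (v κ) : ℝ) : ℂ) = 1 := by
    push_cast
    exact inv_mul_cancel₀ hs0
  by_cases hv : v = v0
  · subst hv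
    have hMd : ∀ l l', M v l l' = if l = l' then v (δ l) else 0 := by
      intro l l'
      obtain ⟨h1, h2⟩ := hM.maj v
      have : (fun l => |v (δ l)|) = fun l => v (δ l) := by
        funext l; exact abs_of_pos (hM.pos l)
      rw [this, h1] at h2
      rw [h2, diagonal_apply]
    have h3 : ∀ f : Fin k → Fin 3 → ℂ, ∑ l', (((v (δ l))⁻¹ * M v l l' : ℝ) : ℂ) • f l' = f l := by
      intro f
      rw [Finset.sum_eq_single l]
      · rw [hMd, if_pos rfl, inv_mul_cancel₀ (hM.pos l).ne']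
        simp
      · intro l' _ hl'
        rw [hMd, if_neg (fun h => hl' h.symm)]
        simp
      · intro h; exact absurd (Finset.mem_univ l) h
    rw [h3, h3, p1 l]
    set x := ∑ i, c i • pl v (bas i l)
    have r1 : B5c_R d v v z x = x - (2 : ℂ) • PZ (v d) z x := by
      unfold B5c_R; rw [if_pos rfl]
    have r2 : ∀ y, B5c_R d v v (mob (evm κ v A C) z) y =
        y - (2 : ℂ) • PZ (v d) (mob (evm κ v A C) z) y := by
      intro y; unfold B5c_R; rw [if_pos rfl]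
    rw [r1, r2, B5d_refl hd.dpos hGU hz]
    set P := PZ (v d) z x
    set a := A.map (fun x => ((v x : ℝ) : ℂ)) with ha
    set b := C.map (fun x => ((v x : ℝ) : ℂ)) with hb
    set s := ((Real.sqrt (v κ) : ℝ) : ℂ) with hs
    set t := (((Real.sqrt (v κ))⁻¹ : ℝ) : ℂ) with ht
    have em : evm κ v A C = a - (I * s) • b := rfl
    have ep : evp κ v A C = a + (I * s) • b := rfl
    rw [em, ep]
    have hts : t * (I * s) = I := by rw [mul_left_comm, hss, mul_one]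
    have e1 : ∀ y : Fin 3 → ℂ, I • (b *ᵥ y) = (t * (I * s)) • (b *ᵥ y) := by
      intro y; rw [hts]
    rw [e1]
    simp only [mulVec_sub, add_mulVec, sub_mulVec, smul_mulVec, mulVec_smul, smul_sub, smul_add,
      smul_smul]
    module
  · have r1 : ∀ z y, B5c_R d v0 v z y = y := by
      intro z y; unfold B5c_R; rw [if_neg hv]
    simp only [r1]
    simp only [p2 v hv]
    set a := A.map (fun x => ((v x : ℝ) : ℂ)) with ha
    set b := C.map (fun x => ((v x : ℝ) : ℂ)) with hb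
    set s := ((Real.sqrt (v κ) : ℝ) : ℂ) with hs
    set t := (((Real.sqrt (v κ))⁻¹ : ℝ) : ℂ) with ht
    set X : Fin k → Fin 3 → ℂ := fun l => ∑ i, c i • pl v (bas i l) with hX
    have hXl : ∀ l, ∑ i, c i • pl v (bas i l) = X l := fun l => rfl
    simp only [hXl]
    have hT : ∑ l', (((v (δ l))⁻¹ * M v l l' : ℝ) : ℂ) •
        ∑ l'', (((v (δ l'))⁻¹ * M v l' l'' : ℝ) : ℂ) • X l'' = X l := by
      simp only [Finset.smul_sum, smul_smul]
      rw [Finset.sum_comm]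
      have : ∀ l'', ∑ l', ((((v (δ l))⁻¹ * M v l l' : ℝ) : ℂ) *
          (((v (δ l'))⁻¹ * M v l' l'' : ℝ) : ℂ)) • X l'' = (if l = l'' then (1 : ℂ) else 0) • X l'' := by
        intro l''
        rw [← Finset.sum_smul]
        congr 1
        have h4 := B5d_T2 hM.ne (hM.maj v) l l''
        have h5 : ((∑ l', ((v (δ l))⁻¹ * M v l l') * ((v (δ l'))⁻¹ * M v l' l'') : ℝ) : ℂ) =
            ((if l = l'' then (1 : ℝ) else 0 : ℝ) : ℂ) := by rw [h4]
        rw [Complex.ofReal_sum] at h5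
        have h6 : ∀ l', ((((v (δ l))⁻¹ * M v l l') * ((v (δ l'))⁻¹ * M v l' l'') : ℝ) : ℂ) =
            (((v (δ l))⁻¹ * M v l l' : ℝ) : ℂ) * (((v (δ l'))⁻¹ * M v l' l'' : ℝ) : ℂ) :=
          fun l' => Complex.ofReal_mul _ _
        simp only [h6] at h5
        rw [h5]
        split_ifs <;> simp
      rw [Finset.sum_congr rfl fun l'' _ => this l'']
      simp
    simp only [smul_add, Finset.sum_add_distrib]
    congr 1
    · rw [mulVec_smul, mulVec_sum]
      congr 1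
      exact Finset.sum_congr rfl fun l' _ => by rw [mulVec_smul]
    · have e2 : ∀ l', (((v (δ l))⁻¹ * M v l l' : ℝ) : ℂ) • (I * s) • (b *ᵥ
          ∑ l'', (((v (δ l'))⁻¹ * M v l' l'' : ℝ) : ℂ) • X l'') =
          (I * s) • (b *ᵥ ((((v (δ l))⁻¹ * M v l l' : ℝ) : ℂ) •
          ∑ l'', (((v (δ l'))⁻¹ * M v l' l'' : ℝ) : ℂ) • X l'')) := by
        intro l'
        rw [mulVec_smul, smul_comm]
      rw [Finset.sum_congr rfl fun l' _ => e2 l', ← Finset.smul_sum, ← mulVec_sum, hT, smul_smul,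
        mul_left_comm, hss, mul_one]

/-- B5d: equivariance of the Siegel matrix of a point of the ball -/
theorem act_Zm {κ d : F} {v0 : F →+* ℝ} (hd : Data κ d v0) {k g : ℕ} {δ : Fin k → F}
    {bas dua : Fin g → Fin k → Fin 3 → F} (hL : LB d δ bas dua)
    {S M : (F →+* ℝ) → Matrix (Fin k) (Fin k) ℝ} (hM : MajAll δ v0 S M) {z : Fin 2 → ℂ} (hz : z ∈ Ball (v0 d))
    {A C : Matrix (Fin 3) (Fin 3) F} (hA : IsSU κ d A C) {MM : Matrix (Fin g ⊕ Fin g) (Fin g ⊕ Fin g) ℤ}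
    (hR : Rep κ bas dua A C MM) :
    act MM (Zm κ d v0 bas M z) = Zm κ d v0 bas M (mob (evm κ v0 A C) z) := by
  have h1 : num MM (Zm κ d v0 bas M z) =
      Zm κ d v0 bas M (mob (evm κ v0 A C) z) * den MM (Zm κ d v0 bas M z) := by
    refine Matrix.ext_of_mulVec_single fun i => ?_
    rw [B5d_main hd hL hM hz hA hR, mulVec_mulVec]
  have h2 : (den MM (Zm κ d v0 bas M z)).det ≠ 0 :=
    den_det_ne hR.sp (Zm_siegel hd hL hM hz)
  unfold act
  rw [h1, Matrix.mul_assoc, Matrix.mul_nonsing_inv _ (isUnit_iff_ne_zero.2 h2), Matrix.mul_one]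

end Pool.Agent.helper76.BQ
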