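import Pool.Agent.helper28.BQ.SpecK

/-!
# BQ, GF: finitely many Gram matrices of bases with bounded majorant
-/

open scoped BigOperators ComplexConjugate Matrix

namespace BQ

theorem GF_herm_self (t : ℝ) (X : Fin 3 → ℂ) :
    (herm t X X).re = ‖X 0‖ ^ 2 + ‖X 1‖ ^ 2 - t * ‖X 2‖ ^ 2 := by
  have h : ∀ z : ℂ, conj z * z = ((‖z‖ ^ 2 : ℝ) : ℂ) := fun z => by
    rw [Complex.conj_mul']; push_cast; rfl
  unfold herm
  rw [h, h, h]
  norm_cast

theorem GF_herm_le (t : ℝ) (ht : t < 0) (X Y : Fin 3 → ℂ) :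
    ‖herm t X Y‖ ≤ ((herm t X X).re + (herm t Y Y).re) / 2 := by
  rw [GF_herm_self, GF_herm_self]
  unfold herm
  have h1 : ‖conj (X 0) * Y 0 + conj (X 1) * Y 1 - (t : ℂ) * (conj (X 2) * Y 2)‖
      ≤ ‖X 0‖ * ‖Y 0‖ + ‖X 1‖ * ‖Y 1‖ + (-t) * (‖X 2‖ * ‖Y 2‖) := by
    refine (norm_sub_le _ _).trans ?_
    refine add_le_add ((norm_add_le _ _).trans (le_of_eq ?_)) (le_of_eq ?_)
    · rw [norm_mul, norm_mul, Complex.norm_conj, Complex.norm_conj]
    · rw [norm_mul, norm_mul, Complex.norm_conj, Complex.norm_real, Real.norm_eq_abs,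
        abs_of_neg ht]
  refine h1.trans ?_
  nlinarith [sq_nonneg (‖X 0‖ - ‖Y 0‖), sq_nonneg (‖X 1‖ - ‖Y 1‖),
    mul_nonneg (neg_nonneg.2 ht.le) (sq_nonneg (‖X 2‖ - ‖Y 2‖))]

theorem GF_herm_nonneg (t : ℝ) (ht : t < 0) (X : Fin 3 → ℂ) : 0 ≤ (herm t X X).re := by
  rw [GF_herm_self]
  nlinarith [sq_nonneg ‖X 0‖, sq_nonneg ‖X 1‖, mul_nonneg (neg_nonneg.2 ht.le) (sq_nonneg ‖X 2‖)]

theorem GF_maj_nonneg (hMA : MA_stmt) (t : ℝ) (w : Fin 2 → ℂ) (hw : w ∈ Ball t) (X : Fin 3 → ℂ) :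
    0 ≤ maj t w X :=
  (abs_nonneg _).trans ((hMA t w hw).2.1 X)

theorem GF_int {F : Type} [Field F] [NumberField F] (hLC : LC_stmt) (kap d : F)
    (hk : IsIntegral ℤ kap) (hd : IsIntegral ℤ d) (c c' : JJ F → ℤ) :
    IsIntegral ℤ (hp kap d (lx c) (ly c) (lx c') (ly c')) ∧
    IsIntegral ℤ (hq d (lx c) (ly c) (lx c') (ly c')) := by
  have h := (hLC F).1
  have hb : ∀ x y : Fin 3 → F, (∀ i, IsIntegral ℤ (x i)) → (∀ i, IsIntegral ℤ (y i)) →
      IsIntegral ℤ (bil d x y) := by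
    intro x y hx hy
    unfold bil
    exact (((hx 0).mul (hy 0)).add ((hx 1).mul (hy 1))).sub (hd.mul ((hx 2).mul (hy 2)))
  have hx : ∀ c i, IsIntegral ℤ (lx (F := F) c i) := fun c i => (h c i).1
  have hy : ∀ c i, IsIntegral ℤ (ly (F := F) c i) := fun c i => (h c i).2
  exact ⟨(hb _ _ (hx c) (hx c')).add (hk.mul (hb _ _ (hy c) (hy c'))),
    (hb _ _ (hx c) (hy c')).sub (hb _ _ (hy c) (hx c'))⟩

theorem GF (hMA : MA_stmt) (hHE : HE_stmt) (hFIN : FIN_stmt) (hLC : LC_stmt) : GF_stmt := by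
  classical
  intro F _ _ kap d v0 H C
  set B : ℝ := max C 0 with hB
  set B2 : ℝ := B + ∑ v : F →+* ℝ, B / Real.sqrt (v kap) with hB2
  have hB0 : 0 ≤ B := le_max_right _ _
  have hT := hFIN F H.real B2
  set T := {a : F | IsIntegral ℤ a ∧ ∀ v : F →+* ℝ, |v a| ≤ B2} with hTdef
  have hfin : {P : JJ F → JJ F → F × F | ∀ j k, P j k ∈ T ×ˢ T}.Finite := by
    have h1 : ∀ j : JJ F, {p : JJ F → F × F | ∀ k, p k ∈ T ×ˢ T}.Finite := fun _ =>
      Set.Finite.pi' fun _ => hT.prod hT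
    exact Set.Finite.pi' h1
  refine hfin.subset ?_
  rintro P ⟨w, hw, U, hU, hP⟩ j k
  set X := fun (v : F →+* ℝ) (j : JJ F) => emb kap v (lx fun i => U i j) (ly fun i => U i j) with hX
  -- bounds for the terms of the majorant
  have hmaj0 : ∀ j, 0 ≤ maj (v0 d) w (X v0 j) := fun j => GF_maj_nonneg hMA _ w hw _
  have hh0 : ∀ (v : F →+* ℝ), v ≠ v0 → ∀ j, 0 ≤ (herm (v d) (X v j) (X v j)).re := fun v hv j =>
    GF_herm_nonneg _ (H.dNeg v hv) _
  have hsum0 : ∀ j, 0 ≤ ∑ v ∈ Finset.univ.erase v0, (herm (v d) (X v j) (X v j)).re := fun j =>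
    Finset.sum_nonneg fun v hv => hh0 v (Finset.ne_of_mem_erase hv) j
  have hmajC : ∀ j, maj (v0 d) w (X v0 j) ≤ B := fun j => by
    have h1 := hU j
    unfold QQ at h1
    have h2 := hsum0 j
    exact le_trans (by linarith) (le_max_left C 0)
  have hhC : ∀ (v : F →+* ℝ), v ≠ v0 → ∀ j, (herm (v d) (X v j) (X v j)).re ≤ B := fun v hv j => by
    have h1 := hU j
    unfold QQ at h1
    have h2 : (herm (v d) (X v j) (X v j)).re ≤
        ∑ v ∈ Finset.univ.erase v0, (herm (v d) (X v j) (X v j)).re :=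
      Finset.single_le_sum (f := fun v => (herm (v d) (X v j) (X v j)).re)
        (fun u hu => hh0 u (Finset.ne_of_mem_erase hu) j)
        (Finset.mem_erase.2 ⟨hv, Finset.mem_univ v⟩)
    have h3 := hmaj0 j
    exact le_trans (by linarith) (le_max_left C 0)
  have hherm : ∀ (v : F →+* ℝ), ‖herm (v d) (X v j) (X v k)‖ ≤ B := by
    intro v
    by_cases hv : v = v0
    · subst hv
      have h1 := (hMA (v d) w hw).2.2 (X v j) (X v k)
      have h2 : maj (v d) w (X v j) * maj (v d) w (X v k) ≤ B * B :=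
        mul_le_mul (hmajC j) (hmajC k) (hmaj0 k) hB0
      exact abs_le_of_sq_le_sq' (by nlinarith) hB0 |>.2
    · have h1 := GF_herm_le (v d) (H.dNeg v hv) (X v j) (X v k)
      have h2 := hhC v hv j
      have h3 := hhC v hv k
      linarith
  have hk0 : ∀ v : F →+* ℝ, 0 < Real.sqrt (v kap) := fun v => Real.sqrt_pos.2 (H.kapPos v)
  have hB2B : B ≤ B2 := by
    rw [hB2]
    exact le_add_of_nonneg_right (Finset.sum_nonneg fun v _ => div_nonneg hB0 (hk0 v).le)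
  have hB2v : ∀ v : F →+* ℝ, B / Real.sqrt (v kap) ≤ B2 := fun v => by
    rw [hB2]
    have := Finset.single_le_sum (f := fun v : F →+* ℝ => B / Real.sqrt (v kap))
      (fun u _ => div_nonneg hB0 (hk0 u).le) (Finset.mem_univ v)
    exact this.trans (le_add_of_nonneg_left hB0)
  obtain ⟨i1, i2⟩ := GF_int hLC kap d H.kapInt H.dInt (fun i => U i j) (fun i => U i k)
  rw [hP j k]
  refine ⟨⟨i1, fun v => ?_⟩, ⟨i2, fun v => ?_⟩⟩
  · have h1 := hherm v
    rw [hX, hHE F kap d v _ _ _ _ (H.kapPos v).le] at h1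
    have h2 := (Complex.abs_re_le_norm _).trans h1
    simp at h2
    exact h2.trans hB2B
  · have h1 := hherm v
    rw [hX, hHE F kap d v _ _ _ _ (H.kapPos v).le] at h1
    have h2 := (Complex.abs_im_le_norm _).trans h1
    simp [abs_mul, abs_of_pos (hk0 v)] at h2
    refine le_trans ?_ (hB2v v)
    rw [le_div_iff₀ (hk0 v), mul_comm]
    exact h2

end BQ
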